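import Pool.Agent.Lib.MP_9ddde4_lc.ClC

set_option autoImplicit false
open Filter Topology

namespace Pool.Agent.Results.MP_9ddde4_lc.EmbeddingClasses

/-- Baire class 1 functions (pointwise limits of continuous real functions) with values in `L`. -/
def BaireIn {T : Type} [TopologicalSpace T] (L : Set ℝ) (f : T → ℝ) : Prop :=
  (∃ u : ℕ → T → ℝ, (∀ n, Continuous (u n)) ∧
    ∀ x, Tendsto (fun n => u n x) atTop (𝓝 (f x))) ∧ ∀ x, f x ∈ L

/-- When the pointwise order of the `L`-valued Baire class 1 functions on `X` order-embeds into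
that of the `M`-valued Baire class 1 functions on `Y`. -/
theorem result {X Y : Type} [TopologicalSpace X] [PolishSpace X]
    [TopologicalSpace Y] [PolishSpace Y] (hXY : Infinite X ∨ Infinite Y) {L M : Set ℝ}
    (hL : L.Nontrivial) (hM : M.Nontrivial) :
    Nonempty ({f : X → ℝ // BaireIn L f} ↪o {g : Y → ℝ // BaireIn M g}) ↔
      (Countable X ∧ Infinite Y) ∨
        (Uncountable Y ∧ (interior L = ∅ ∨ (interior M).Nonempty) ∧
          (SigmaCompactSpace X ∨ ¬ SigmaCompactSpace Y)) := by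
  classical
  rw [← Pool.Agent.Lib.MP_9ddde4_lc.Cl.classify' hXY hL hM]
  constructor
  · rintro ⟨Φ⟩
    refine ⟨fun f => if h : BaireIn L f then (Φ ⟨f, h⟩).1 else 0, fun f hf => ?_,
      fun f g hf hg => ?_⟩
    · have hf' : BaireIn L f := hf
      simp only [dif_pos hf']
      exact (Φ ⟨f, hf'⟩).2
    · have hf' : BaireIn L f := hf
      have hg' : BaireIn L g := hg
      simp only [dif_pos hf', dif_pos hg']
      exact Φ.le_iff_le (a := ⟨f, hf'⟩) (b := ⟨g, hg'⟩)
  · rintro ⟨Φ, h1, h2⟩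
    exact ⟨OrderEmbedding.ofMapLEIff (fun f => ⟨Φ f.1, h1 f.1 f.2⟩) fun f g => h2 f.1 g.1 f.2 g.2⟩

end Pool.Agent.Results.MP_9ddde4_lc.EmbeddingClasses
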