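import Mathlib

set_option autoImplicit false
open Set Topology

namespace Pool.Agent.Results.MP_9ddde4_lc.NoCrownInLex

/-- Lexicographic strict order on `I`-sequences of real functions: at the first index where the
sequences differ the functions are compared pointwise, upward if `up i` and downward otherwise. -/
def LexLt {I Y : Type} [LinearOrder I] (up : I → Prop) (s t : I → Y → ℝ) : Prop :=
  ∃ i, (∀ j, j < i → s j = t j) ∧ ((up i ∧ s i < t i) ∨ (¬ up i ∧ t i < s i))

lemma jump {Y : Type} [TopologicalSpace Y] [SecondCountableTopology Y] {f g : Y → ℝ}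
    (hf : UpperSemicontinuous f) (h : ¬ g ≤ f) :
    ∃ p : ℚ × TopologicalSpace.countableBasis Y,
      (∀ y ∈ (p.2 : Set Y), f y < p.1) ∧ ¬ (∀ y ∈ (p.2 : Set Y), g y < p.1) := by
  obtain ⟨y, hy⟩ := not_forall.1 (fun H => h (Pi.le_def.2 H))
  obtain ⟨q, h1, h2⟩ := exists_rat_btwn (not_le.1 hy)
  have h3 : {z | f z < q} ∈ 𝓝 y := hf y q h1
  obtain ⟨U, hU, hyU, hsub⟩ :=
    (TopologicalSpace.isBasis_countableBasis Y).mem_nhds_iff.1 h3
  refine ⟨(q, ⟨U, hU⟩), fun z hz => hsub hz, fun hall => ?_⟩
  have := hall y hyU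
  simp only at this
  linarith

lemma no_crown {X Y : Type} [Uncountable X] [TopologicalSpace Y] [SecondCountableTopology Y]
    (a b : X → Y → ℝ) (hb : ∀ x, UpperSemicontinuous (b x))
    (hne : ∀ x y, x ≠ y → a x ≤ b y) : ∃ x, a x ≤ b x := by
  by_contra hc
  choose p hp1 hp2 using fun x => jump (hb x) (fun h => hc ⟨x, h⟩)
  have : Countable (TopologicalSpace.countableBasis Y) :=
    (TopologicalSpace.countable_countableBasis Y).to_subtype
  have hinj : Function.Injective p := by
    intro x y hxy
    by_contra hn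
    exact hp2 x fun z hz => lt_of_le_of_lt (hne x y hn z) (by rw [hxy] at hz ⊢; exact hp1 y z hz)
  exact not_countable (α := X) hinj.countable

lemma all_eq {X Y : Type} [Uncountable X] [TopologicalSpace Y] [SecondCountableTopology Y]
    (a b : X → Y → ℝ) (hb : ∀ x, UpperSemicontinuous (b x))
    (hne : ∀ x y, x ≠ y → a x ≤ b y) (hd : ∀ x, ¬ a x < b x) :
    ∃ c, ∀ x, a x = c ∧ b x = c := by
  obtain ⟨x0, h0⟩ := no_crown a b hb hne
  have e0 : a x0 = b x0 := h0.eq_of_not_lt (hd x0)
  refine ⟨a x0, fun z => ?_⟩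
  by_cases hz : z = x0
  · rw [hz]; exact ⟨rfl, e0.symm⟩
  have h1 : a z ≤ a x0 := e0 ▸ hne z x0 hz
  have h2 : a x0 ≤ b z := hne x0 z (Ne.symm hz)
  have e1 : a z = b z := (h1.trans h2).eq_of_not_lt (hd z)
  exact ⟨le_antisymm h1 (e1 ▸ h2), le_antisymm (e1 ▸ h1) h2⟩

lemma single {X I Y : Type} [Uncountable X] [LinearOrder I] [WellFoundedLT I]
    [TopologicalSpace Y] [SecondCountableTopology Y] (up : I → Prop) (a b : X → I → Y → ℝ)
    (ha : ∀ x i, UpperSemicontinuous (a x i)) (hb : ∀ x i, UpperSemicontinuous (b x i))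
    (hne : ∀ x y, x ≠ y → a x = b y ∨ LexLt up (a x) (b y))
    (hd : ∀ x, ¬ (a x = b x ∨ LexLt up (a x) (b x))) : False := by
  have all : ∀ d : I, ∃ c, ∀ x, a x d = c ∧ b x d = c := by
    intro d
    induction d using WellFoundedLT.induction with
    | ind d ih =>
      have low : ∀ x y j, j < d → a x j = b y j := fun x y j hj => by
        obtain ⟨c, hc⟩ := ih j hj
        exact (hc x).1.trans (hc y).2.symm
      have key : ∀ x y, x ≠ y → a x d = b y d ∨
          ((up d ∧ a x d < b y d) ∨ (¬ up d ∧ b y d < a x d)) := by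
        intro x y hxy
        rcases hne x y hxy with h | ⟨i, hi, h⟩
        · exact Or.inl (congrFun h d)
        rcases lt_trichotomy i d with hlt | rfl | hlt
        · exfalso
          have := low x y i hlt
          rcases h with h | h
          · exact h.2.ne this
          · exact h.2.ne' this
        · exact Or.inr h
        · exact Or.inl (hi d hlt)
      by_cases hu : up d
      · refine all_eq (fun x => a x d) (fun x => b x d) (fun x => hb x d) (fun x y hxy => ?_)
          fun x h => hd x (Or.inr ⟨d, low x x, Or.inl ⟨hu, h⟩⟩)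
        rcases key x y hxy with h | h | h
        · exact h.le
        · exact h.2.le
        · exact absurd hu h.1
      · obtain ⟨c, hc⟩ := all_eq (fun x => b x d) (fun x => a x d) (fun x => ha x d)
          (fun x y hxy => by
            rcases key y x (Ne.symm hxy) with h | h | h
            · exact h.ge
            · exact absurd h.1 hu
            · exact h.2.le)
          fun x h => hd x (Or.inr ⟨d, low x x, Or.inr ⟨hu, h⟩⟩)
        exact ⟨c, fun x => ⟨(hc x).2, (hc x).1⟩⟩
  obtain ⟨x⟩ : Nonempty X := inferInstance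
  refine hd x (Or.inl (funext fun d => ?_))
  obtain ⟨c, hc⟩ := all d
  exact (hc x).1.trans (hc x).2.symm

theorem result {T : Type} [Uncountable T] (I Y : ℕ → Type)
    [∀ n, LinearOrder (I n)] [∀ n, WellFoundedLT (I n)]
    [∀ n, TopologicalSpace (Y n)] [∀ n, SecondCountableTopology (Y n)]
    (up : ∀ n, I n → Prop) (a b : T → ∀ n, I n → Y n → ℝ)
    (ha : ∀ x n i, UpperSemicontinuous (a x n i)) (hb : ∀ x n i, UpperSemicontinuous (b x n i))
    (h : ∀ x y, x ≠ y → ∀ n, a x n = b y n ∨ LexLt (up n) (a x n) (b y n)) :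
    ∃ x, ∀ n, a x n = b x n ∨ LexLt (up n) (a x n) (b x n) := by
  by_contra hc
  have hc' : ∀ x, ∃ n, ¬ (a x n = b x n ∨ LexLt (up n) (a x n) (b x n)) := fun x =>
    not_forall.1 fun H => hc ⟨x, H⟩
  choose m hm using hc'
  have : ∃ n, ¬ (m ⁻¹' {n}).Countable := by
    by_contra hn
    have h1 : (⋃ n, m ⁻¹' {n}).Countable := countable_iUnion fun n => by
      by_contra h2
      exact hn ⟨n, h2⟩
    have h2 : (⋃ n, m ⁻¹' {n}) = univ := by
      ext x
      simp
    rw [h2] at h1
    exact not_countable_univ h1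
  obtain ⟨n, hn⟩ := this
  have : Uncountable (m ⁻¹' {n}) := uncountable_iff_not_countable _ |>.2 hn
  refine single (X := m ⁻¹' {n}) (up n) (fun x => a x n) (fun x => b x n)
    (fun x => ha x n) (fun x => hb x n)
    (fun x y hxy => h x y (fun e => hxy (Subtype.ext e)) n) fun x => ?_
  have e : m x = n := x.2
  have := hm x
  rw [e] at this
  exact this

end Pool.Agent.Results.MP_9ddde4_lc.NoCrownInLex
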